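import Pool.Agent.H923R2.FP.Stubs

/-! Task T2 (helper311): operator norm from the 2-norm. -/

set_option autoImplicit false

open scoped ComplexConjugate

namespace Pool.Agent.H923R2.FP.T_T2

open Pool.Agent.H923R2.FP

theorem t_T2 : S_T2 := by
  intro A _ τ hτ x B hB h
  by_contra hcon
  push Not at hcon
  have hx0 : x ≠ 0 := by
    rintro rfl
    rw [norm_zero] at hcon
    linarith
  haveI : Nontrivial A := ⟨x, 0, hx0⟩
  obtain ⟨S, hSd⟩ : ∃ S : A, S = star x * x := ⟨_, rfl⟩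
  have hS : IsSelfAdjoint S := by rw [hSd]; exact IsSelfAdjoint.star_mul_self x
  have hSn : ‖S‖ = ‖x‖ * ‖x‖ := by rw [hSd]; exact CStarRing.norm_star_mul_self
  obtain ⟨c, hc1, hc2⟩ : ∃ c, B ^ 2 < c ∧ c < ‖S‖ := exists_between (by nlinarith)
  have hmem : ‖S‖ ∈ spectrum ℝ S := by
    rcases CStarAlgebra.norm_or_neg_norm_mem_spectrum hS with h1 | h1
    · exact h1
    · have h2 : 0 ≤ -‖S‖ := by
        rw [hSd] at h1
        have := spectrum_star_mul_self_nonneg _ h1
        rw [hSd]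
        exact this
      have h3 : ‖S‖ = 0 := le_antisymm (by linarith) (norm_nonneg _)
      rw [h3] at h1 ⊢
      simpa using h1
  obtain ⟨f, hfd⟩ : ∃ f : ℝ → ℝ, f = fun l => max 0 (l - c) := ⟨_, rfl⟩
  obtain ⟨g, hgd⟩ : ∃ g : ℝ → ℝ, g = fun l => f l * Real.sqrt (f l) := ⟨_, rfl⟩
  have hf : Continuous f := by rw [hfd]; fun_prop
  have hg : Continuous g := by rw [hgd]; fun_prop
  have hf0 : ∀ l, 0 ≤ f l := by intro l; rw [hfd]; exact le_max_left _ _
  obtain ⟨ξ, hξd⟩ : ∃ ξ : A, ξ = cfc f S := ⟨_, rfl⟩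
  obtain ⟨y, hyd⟩ : ∃ y : A, y = cfc g S := ⟨_, rfl⟩
  have hξs : star ξ = ξ := by rw [hξd]; exact (cfc_predicate f S).star_eq
  have hys : star y = y := by rw [hyd]; exact (cfc_predicate g S).star_eq
  have hid : cfc (fun l : ℝ => l) S = S := cfc_id' ℝ S
  have hpt : (fun l : ℝ => f l * l * f l) = fun l => g l * g l + c * (f l * f l) := by
    funext l
    have h1 : g l * g l = f l * f l * f l := by
      rw [hgd]
      have := Real.mul_self_sqrt (hf0 l)
      calc f l * √(f l) * (f l * √(f l)) = f l * f l * (√(f l) * √(f l)) := by ring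
        _ = _ := by rw [this]
    rw [h1]
    rcases le_total c l with h2 | h2
    · have h3 : f l = l - c := by rw [hfd]; exact max_eq_right (by linarith)
      rw [h3]; ring
    · have h3 : f l = 0 := by rw [hfd]; exact max_eq_left (by linarith)
      rw [h3]; ring
  have key : ξ * S * ξ = y * y + (c : ℂ) • (ξ * ξ) := by
    have e1 : ξ * S * ξ = cfc (fun l : ℝ => f l * l * f l) S := by
      rw [cfc_mul (fun l : ℝ => f l * l) f S (by fun_prop) (by fun_prop),
        cfc_mul f (fun l : ℝ => l) S (by fun_prop) (by fun_prop), hid, ← hξd]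
    have e2 : y * y = cfc (fun l : ℝ => g l * g l) S := by
      rw [cfc_mul g g S (by fun_prop) (by fun_prop), ← hyd]
    have e3 : (c : ℂ) • (ξ * ξ) = cfc (fun l : ℝ => c * (f l * f l)) S := by
      rw [cfc_const_mul c (fun l : ℝ => f l * f l) S (by fun_prop),
        cfc_mul f f S (by fun_prop) (by fun_prop), ← hξd]
      exact Complex.coe_smul c (ξ * ξ)
    rw [e1, e2, e3, hpt, cfc_add (a := S) (fun l : ℝ => g l * g l) (fun l : ℝ => c * (f l * f l))
      (by fun_prop) (by fun_prop)]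
  have n1 : nt τ (x * ξ) ^ 2 = (τ (ξ * S * ξ)).re := by
    unfold nt
    rw [Real.sq_sqrt (hτ.nonneg _)]
    congr 2
    rw [star_mul, hξs, hSd]
    simp only [mul_assoc]
  have n2 : nt τ ξ ^ 2 = (τ (ξ * ξ)).re := by
    unfold nt
    rw [Real.sq_sqrt (hτ.nonneg _), hξs]
  have n3 : nt τ (x * ξ) ^ 2 ≤ B ^ 2 * nt τ ξ ^ 2 := by
    rw [← mul_pow]
    exact pow_le_pow_left₀ (Real.sqrt_nonneg _) (h ξ) 2
  have n4 : (τ (ξ * S * ξ)).re = (τ (star y * y)).re + c * (τ (ξ * ξ)).re := by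
    rw [key, map_add, map_smul, hys]
    simp
  have n5 := hτ.nonneg y
  have n6 : (c - B ^ 2) * (τ (ξ * ξ)).re ≤ 0 := by
    rw [n1, n4, n2] at n3
    linarith
  have n7 : 0 ≤ (τ (ξ * ξ)).re := by
    have := hτ.nonneg ξ
    rwa [hξs] at this
  have n8 : (τ (ξ * ξ)).re = 0 := by
    have : 0 < c - B ^ 2 := by linarith
    nlinarith
  have hξ0 : ξ = 0 := by
    apply hτ.faith
    rw [hξs]
    exact n8
  have heq : cfc f S = cfc (fun _ : ℝ => (0 : ℝ)) S := by
    rw [← hξd, hξ0]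
    exact (cfc_const_zero ℝ S).symm
  have hon := (cfc_eq_cfc_iff_eqOn (R := ℝ) (a := S) (f := f) (g := fun _ => (0:ℝ)) hS
    (by fun_prop) (by fun_prop)).mp heq
  have h1 := hon hmem
  rw [hfd] at h1
  simp only at h1
  rw [max_eq_right (by linarith)] at h1
  linarith

end Pool.Agent.H923R2.FP.T_T2
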